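import Pool.Agent.W536.XI.Stm

open Complex MeasureTheory Filter Topology Metric

namespace Pool.Agent.W240.XI

open W536.XI

/-- logarithm of a function without zeros in a disc -/
theorem exists_log {g : ℂ → ℂ} (hg : Differentiable ℂ g) {R : ℝ} (hR : 0 < R)
    (h0 : ∀ z ∈ ball (0 : ℂ) R, g z ≠ 0) :
    ∃ h : ℂ → ℂ, DifferentiableOn ℂ h (ball 0 R) ∧ h 0 = 0 ∧
      ∀ z ∈ ball (0 : ℂ) R, g z = g 0 * cexp (h z) := by
  have hd : Differentiable ℂ (deriv g) := by
    have h1 : ContDiff ℂ 2 g := hg.contDiff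
    exact (h1.differentiable_deriv_two)
  have h1 : DifferentiableOn ℂ (fun z => deriv g z / g z) (ball 0 R) :=
    hd.differentiableOn.div hg.differentiableOn h0
  obtain ⟨h, hh0, hh⟩ := h1.isExactOn_ball.with_val_at 0 0
  have hhd : DifferentiableOn ℂ h (ball 0 R) := fun z hz =>
    (hh z hz).differentiableAt.differentiableWithinAt
  refine ⟨h, hhd, hh0, fun z hz => ?_⟩
  have hk : DifferentiableOn ℂ (fun z => g z * cexp (-(h z))) (ball 0 R) :=
    hg.differentiableOn.mul hhd.neg.cexp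
  have hk' : (ball (0 : ℂ) R).EqOn (deriv fun z => g z * cexp (-(h z))) 0 := by
    intro w hw
    have e1 : HasDerivAt (fun z => g z * cexp (-(h z)))
        (deriv g w * cexp (-(h w)) + g w * (cexp (-(h w)) * (-(deriv g w / g w)))) w :=
      (hg w).hasDerivAt.mul ((hh w hw).neg.cexp)
    rw [e1.deriv]
    have := h0 w hw
    simp only [Pi.zero_apply]
    field_simp
    ring
  have hc := isOpen_ball.is_const_of_deriv_eq_zero (convex_ball (0 : ℂ) R).isPreconnected hk hk'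
    hz (mem_ball_self hR)
  simp only [hh0, neg_zero, Complex.exp_zero, mul_one] at hc
  rw [← hc, mul_assoc, ← Complex.exp_add]
  simp

theorem hgeo (m : ℕ) : ∑ i ∈ Finset.range m, (10 : ℝ) ^ i ≤ 10 ^ m := by
  induction m with
  | zero => simp
  | succ m ih =>
    rw [Finset.sum_range_succ, pow_succ]
    have : (0 : ℝ) < 10 ^ m := by positivity
    linarith

theorem taylor_bound {h : ℂ → ℂ} (hd : DifferentiableOn ℂ h (ball 0 (7 / 5))) {B1 B2 : ℝ}
    (hB1 : 0 ≤ B1) (hB2 : 0 ≤ B2) (h1 : ∀ z ∈ sphere (0 : ℂ) (1 / 8), ‖h z‖ ≤ B1)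
    (h2 : ∀ z ∈ sphere (0 : ℂ) (13 / 10), ‖h z‖ ≤ B2) (m : ℕ) {z : ℂ} (hz : ‖z‖ ≤ 6 / 5) :
    ‖h z‖ ≤ B1 * 10 ^ m + B2 * (12 / 13) ^ m * 13 := by
  have hs := hasSum_taylorSeries_on_ball hd (z := z) (by
    rw [mem_ball_zero_iff]; linarith)
  set t : ℕ → ℂ := fun n => ((n.factorial : ℂ))⁻¹ • (z - 0) ^ n • iteratedDeriv n h 0 with ht
  have hcl : ∀ r : ℝ, 0 < r → r < 7 / 5 → DiffContOnCl ℂ h (ball 0 r) := by
    intro r hr hr2
    refine DifferentiableOn.diffContOnCl ?_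
    rw [closure_ball _ hr.ne']
    exact hd.mono (closedBall_subset_ball hr2)
  have hterm : ∀ (r B : ℝ), 0 < r → r < 7 / 5 → 0 ≤ B → (∀ z ∈ sphere (0 : ℂ) r, ‖h z‖ ≤ B) →
      ∀ n, ‖t n‖ ≤ B * ((6 / 5) / r) ^ n := by
    intro r B hr hr2 hB hb n
    have h3 := norm_iteratedDeriv_le_of_forall_mem_sphere_norm_le n hr (hcl r hr hr2) hb
    have hf : (0 : ℝ) < n.factorial := by exact_mod_cast n.factorial_pos
    simp only [ht, sub_zero]
    rw [norm_smul, norm_smul, norm_inv, norm_natCast, norm_pow]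
    calc (n.factorial : ℝ)⁻¹ * (‖z‖ ^ n * ‖iteratedDeriv n h 0‖)
        ≤ (n.factorial : ℝ)⁻¹ * ((6 / 5) ^ n * (n.factorial * B / r ^ n)) := by
          gcongr
      _ = ((n.factorial : ℝ)⁻¹ * n.factorial) * (B * ((6 / 5) ^ n / r ^ n)) := by ring
      _ = B * ((6 / 5) / r) ^ n := by
          rw [inv_mul_cancel₀ hf.ne', one_mul, ← div_pow]
  have hA := hterm (1 / 8) B1 (by norm_num) (by norm_num) hB1 h1
  have hB := hterm (13 / 10) B2 (by norm_num) (by norm_num) hB2 h2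
  have e1 : h z = ∑ i ∈ Finset.range m, t i + ∑' i, t (i + m) := by
    rw [hs.summable.sum_add_tsum_nat_add]
    exact hs.tsum_eq.symm
  rw [e1]
  refine (norm_add_le _ _).trans (add_le_add ?_ ?_)
  · refine (norm_sum_le _ _).trans ?_
    calc ∑ i ∈ Finset.range m, ‖t i‖ ≤ ∑ i ∈ Finset.range m, B1 * 10 ^ i := by
          refine Finset.sum_le_sum fun i _ => (hA i).trans ?_
          refine mul_le_mul_of_nonneg_left ?_ hB1
          exact pow_le_pow_left₀ (by norm_num) (by norm_num) i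
      _ = B1 * ∑ i ∈ Finset.range m, (10 : ℝ) ^ i := by rw [Finset.mul_sum]
      _ ≤ B1 * 10 ^ m := by
          exact mul_le_mul_of_nonneg_left (hgeo m) hB1
  · have hg : HasSum (fun i : ℕ => B2 * (12 / 13) ^ m * (12 / 13 : ℝ) ^ i)
        (B2 * (12 / 13) ^ m * 13) := by
      have := (hasSum_geometric_of_lt_one (r := (12 / 13 : ℝ)) (by norm_num)
        (by norm_num)).mul_left (B2 * (12 / 13) ^ m)
      norm_num at this ⊢
      exact this
    refine tsum_of_norm_bounded hg fun i => (hB (i + m)).trans (le_of_eq ?_)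
    rw [pow_add]
    norm_num
    ring

theorem lc (hz : S_ZF) : S_LC := by
  intro c0 hc0
  obtain ⟨m, hm⟩ := exists_pow_lt_of_lt_one (show (0 : ℝ) < c0 / 2704 by positivity)
    (show (12 / 13 : ℝ) < 1 by norm_num)
  set P : ℝ := 10 ^ m with hP
  have hP1 : 1 ≤ P := one_le_pow₀ (by norm_num)
  refine ⟨min (1 / 8) (c0 / (36 * P)), max 2 (4 * (1 + 4 * P) / c0),
    lt_min (by norm_num) (by positivity), ?_⟩
  intro M hM f hf hf1 hf2 hf3 S hS
  have hM2 : 2 ≤ M := le_trans (le_max_left _ _) hM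
  have hM3 : 4 * (1 + 4 * P) / c0 ≤ M := le_trans (le_max_right _ _) hM
  rw [div_le_iff₀ hc0] at hM3
  by_contra hcon
  rw [not_le, ← Nat.cast_sum] at hcon
  set N : ℕ := ∑ a ∈ S, analyticOrderNatAt f a with hN
  have hN0 : (0 : ℝ) ≤ N := Nat.cast_nonneg _
  have hd1 : (N : ℝ) ≤ 1 / 8 * M :=
    hcon.le.trans (mul_le_mul_of_nonneg_right (min_le_left _ _) (by linarith))
  have hd2 : (N : ℝ) ≤ c0 / (36 * P) * M :=
    hcon.le.trans (mul_le_mul_of_nonneg_right (min_le_right _ _) (by linarith))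
  have hd3 : 36 * (N * P) ≤ c0 * M := by
    have : c0 / (36 * P) * M = c0 * M / (36 * P) := by ring
    rw [this, le_div_iff₀ (by positivity)] at hd2
    linarith
  have hd4 : (N : ℝ) ≤ N * P := by nlinarith
  -- the factorisation
  have hf0 : f 0 ≠ 0 := by
    intro h
    have := hf1 0 (by simp)
    rw [h, zero_sub, norm_neg, norm_one] at this
    norm_num at this
  obtain ⟨S', g, hS', hg, hgne, -, hfg⟩ := hz f hf ⟨0, hf0⟩ (7 / 5)
  have hSS : S' = S := by
    ext a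
    rw [hS', hS]
  subst hSS
  set q : ℂ → ℂ := fun z => ∏ a ∈ S', ((z - a) / 4) ^ (analyticOrderNatAt f a) with hq
  set gt : ℂ → ℂ := fun z => 4 ^ N * g z with hgt
  have hfq : ∀ z, f z = q z * gt z := by
    intro z
    rw [hfg z]
    simp only [hq, hgt]
    have h4 : (4 : ℂ) ^ N = ∏ a ∈ S', (4 : ℂ) ^ (analyticOrderNatAt f a) := by
      rw [hN, Finset.prod_pow_eq_pow_sum]
    rw [h4, ← mul_assoc, ← Finset.prod_mul_distrib]
    congr 1
    refine Finset.prod_congr rfl fun a _ => ?_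
    rw [← mul_pow, div_mul_cancel₀ _ (by norm_num : (4 : ℂ) ≠ 0)]
  have hqlow : ∀ (δ : ℝ) (z : ℂ), 0 ≤ δ → (∀ a ∈ S', δ ≤ ‖(z - a) / 4‖) → δ ^ N ≤ ‖q z‖ := by
    intro δ z hδ h
    simp only [hq]
    rw [norm_prod, hN, ← Finset.prod_pow_eq_pow_sum]
    refine Finset.prod_le_prod (fun _ _ => by positivity) fun a ha => ?_
    rw [norm_pow]
    exact pow_le_pow_left₀ hδ (h a ha) _
  have hqup : ∀ z : ℂ, ‖z‖ ≤ 3 / 2 → ‖q z‖ ≤ 1 := by
    intro z hz
    simp only [hq]
    rw [norm_prod]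
    refine Finset.prod_le_one (fun _ _ => norm_nonneg _) fun a ha => ?_
    rw [norm_pow]
    refine pow_le_one₀ (norm_nonneg _) ?_
    rw [norm_div]
    have h1 := ((hS' a).1 ha).1
    have h2 := norm_sub_le z a
    have h3 : ‖(4 : ℂ)‖ = 4 := by norm_num
    rw [h3]
    linarith
  have hS2 : ∀ a ∈ S', 1 / 2 < ‖a‖ := by
    intro a ha
    by_contra h
    have h1 := hf1 a (not_lt.1 h)
    rw [((hS' a).1 ha).2, zero_sub, norm_neg, norm_one] at h1
    norm_num at h1
  have hgtd : Differentiable ℂ gt := hg.const_mul _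
  have hgtne : ∀ z ∈ ball (0 : ℂ) (7 / 5), gt z ≠ 0 := by
    intro z hz
    rw [mem_ball_zero_iff] at hz
    exact mul_ne_zero (pow_ne_zero _ (by norm_num)) (hgne z hz.le)
  have he1 := Real.exp_one_gt_d9
  have he2 : 3 ≤ Real.exp 2 := by
    have : Real.exp 2 = Real.exp 1 * Real.exp 1 := by rw [← Real.exp_add]; norm_num
    rw [this]
    nlinarith
  have he3 : 16 ≤ Real.exp 3 := by
    have : Real.exp 3 = Real.exp 1 * Real.exp 1 * Real.exp 1 := by
      rw [← Real.exp_add, ← Real.exp_add]; norm_num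
    rw [this]
    have h7 : 7.3 ≤ Real.exp 1 * Real.exp 1 := by nlinarith
    nlinarith
  have he4 : 40 ≤ Real.exp 4 := by
    have : Real.exp 4 = (Real.exp 1 * Real.exp 1) * (Real.exp 1 * Real.exp 1) := by
      rw [← Real.exp_add, ← Real.exp_add]; norm_num
    rw [this]
    have h7 : 7.3 ≤ Real.exp 1 * Real.exp 1 := by nlinarith
    nlinarith
  have he40 : (40 : ℝ) ^ N ≤ Real.exp (4 * N) := by
    rw [mul_comm, Real.exp_nat_mul]
    exact pow_le_pow_left₀ (by norm_num) he4 _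
  have he16 : (16 : ℝ) ^ N ≤ Real.exp (3 * N) := by
    rw [mul_comm, Real.exp_nat_mul]
    exact pow_le_pow_left₀ (by norm_num) he3 _
  -- bound of gt in the disc of radius 3/2
  have hgt1 : ∀ z : ℂ, ‖z‖ ≤ 3 / 2 → ‖gt z‖ ≤ Real.exp (M + 4 * N) := by
    intro z hz
    have hfr : ∀ w ∈ frontier (ball (0 : ℂ) (3 / 2)), ‖gt w‖ ≤ Real.exp (M + 4 * N) := by
      intro w hw
      rw [frontier_ball _ (by norm_num : (3 / 2 : ℝ) ≠ 0), mem_sphere_zero_iff_norm] at hw
      have h1 : (1 / 40 : ℝ) ^ N ≤ ‖q w‖ := by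
        refine hqlow _ _ (by norm_num) fun a ha => ?_
        rw [norm_div]
        have h2 := norm_sub_norm_le w a
        have h3 := ((hS' a).1 ha).1
        have h4 : ‖(4 : ℂ)‖ = 4 := by norm_num
        rw [h4]
        linarith
      have h2 := hf2 w hw.le
      rw [hfq w, norm_mul] at h2
      have h3 : (1 / 40 : ℝ) ^ N * ‖gt w‖ ≤ Real.exp M :=
        (mul_le_mul_of_nonneg_right h1 (norm_nonneg _)).trans h2
      rw [one_div, inv_pow, inv_mul_le_iff₀ (by positivity)] at h3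
      rw [Real.exp_add, mul_comm]
      exact h3.trans (mul_le_mul_of_nonneg_right he40 (Real.exp_pos _).le)
    refine norm_le_of_forall_mem_frontier_norm_le isBounded_ball hgtd.diffContOnCl hfr ?_
    rw [closure_ball _ (by norm_num : (3 / 2 : ℝ) ≠ 0), mem_closedBall_zero_iff]
    exact hz
  have hgt2 : ∀ z : ℂ, ‖z‖ ≤ 1 / 4 → 1 / 2 ≤ ‖gt z‖ ∧ ‖gt z‖ ≤ 3 / 2 * 16 ^ N := by
    intro z hz
    have h1 := hf1 z (by linarith)
    have h2 : 1 / 2 ≤ ‖f z‖ := by
      have := norm_sub_norm_le (1 : ℂ) (1 - f z)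
      rw [norm_one, norm_sub_rev, sub_sub_cancel] at this
      linarith
    have h3 : ‖f z‖ ≤ 3 / 2 := by
      have := norm_add_le (f z - 1) 1
      rw [sub_add_cancel, norm_one] at this
      linarith
    rw [hfq z, norm_mul] at h2 h3
    have h4 := hqup z (by linarith)
    have h5 : (1 / 16 : ℝ) ^ N ≤ ‖q z‖ := by
      refine hqlow _ _ (by norm_num) fun a ha => ?_
      rw [norm_div]
      have h2 := norm_sub_norm_le a z
      rw [norm_sub_rev] at h2
      have h3 := hS2 a ha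
      have h4 : ‖(4 : ℂ)‖ = 4 := by norm_num
      rw [h4]
      linarith
    constructor
    · nlinarith [norm_nonneg (gt z)]
    · have h6 : (1 / 16 : ℝ) ^ N * ‖gt z‖ ≤ 3 / 2 :=
        (mul_le_mul_of_nonneg_right h5 (norm_nonneg _)).trans h3
      rw [one_div, inv_pow, inv_mul_le_iff₀ (by positivity)] at h6
      linarith
  -- the logarithm
  obtain ⟨h, hhd, hh0, hh⟩ := exists_log hgtd (by norm_num : (0 : ℝ) < 7 / 5) hgtne
  have hnorm : ∀ z ∈ ball (0 : ℂ) (7 / 5), ‖gt z‖ = ‖gt 0‖ * Real.exp (h z).re := by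
    intro z hz
    rw [hh z hz, norm_mul, Complex.norm_exp]
  have hgt0 := hgt2 0 (by simp)
  have hre1 : ∀ z ∈ ball (0 : ℂ) (7 / 5), (h z).re ≤ M + 4 * N + 1 := by
    intro z hz
    have h1 := hnorm z hz
    have h2 := hgt1 z (by rw [mem_ball_zero_iff] at hz; linarith)
    rw [h1] at h2
    have h3 : Real.exp (h z).re ≤ 2 * Real.exp (M + 4 * N) := by
      nlinarith [Real.exp_pos (h z).re]
    have h4 : Real.exp (h z).re ≤ Real.exp (M + 4 * N + 1) := by
      rw [Real.exp_add (M + 4 * N) 1]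
      nlinarith [Real.exp_pos (M + 4 * N)]
    exact Real.exp_le_exp.1 h4
  have hre2 : ∀ z ∈ ball (0 : ℂ) (1 / 4), (h z).re ≤ 3 * N + 2 := by
    intro z hz
    have hz' : ‖z‖ < 1 / 4 := by rwa [mem_ball_zero_iff] at hz
    have h1 := hnorm z (by rw [mem_ball_zero_iff]; linarith)
    have h2 := (hgt2 z hz'.le).2
    rw [h1] at h2
    have h3 : Real.exp (h z).re ≤ 3 * 16 ^ N := by
      nlinarith [Real.exp_pos (h z).re]
    have h4 : Real.exp (h z).re ≤ Real.exp (3 * N + 2) := by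
      rw [Real.exp_add]
      have h5 : (0 : ℝ) < 16 ^ N := by positivity
      nlinarith [Real.exp_pos (3 * (N : ℝ))]
    exact Real.exp_le_exp.1 h4
  have hb1 : ∀ z ∈ sphere (0 : ℂ) (1 / 8), ‖h z‖ ≤ 2 * (3 * N + 2) := by
    intro z hz
    rw [mem_sphere_zero_iff_norm] at hz
    have := borelCaratheodory_zero (f := h) (M := 3 * N + 2) (R := 1 / 4) (z := z)
      (by positivity) (hhd.mono (ball_subset_ball (by norm_num))) (fun w hw => hre2 w hw)
      (by norm_num) (by rw [mem_ball_zero_iff, hz]; norm_num) hh0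
    rw [hz] at this
    refine this.trans (le_of_eq ?_)
    norm_num
  have hb2 : ∀ z ∈ sphere (0 : ℂ) (13 / 10), ‖h z‖ ≤ 52 * M := by
    intro z hz
    rw [mem_sphere_zero_iff_norm] at hz
    have := borelCaratheodory_zero (f := h) (M := M + 4 * N + 1) (R := 7 / 5) (z := z)
      (by positivity) hhd (fun w hw => hre1 w hw)
      (by norm_num) (by rw [mem_ball_zero_iff, hz]; norm_num) hh0
    rw [hz] at this
    refine this.trans ?_
    have e : 2 * (M + 4 * ↑N + 1) * (13 / 10) / (7 / 5 - 13 / 10) = 26 * (M + 4 * N + 1) := by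
      ring
    rw [e]
    linarith
  obtain ⟨z1, hz1, hz2⟩ := hf3
  have hT := taylor_bound hhd (by positivity) (by positivity) hb1 hb2 m hz1
  have hfin : Real.exp (c0 * M) ≤ Real.exp (1 + 3 * N + ‖h z1‖) := by
    have h1 : ‖f z1‖ ≤ ‖gt z1‖ := by
      rw [hfq z1, norm_mul]
      have := hqup z1 (by linarith)
      nlinarith [norm_nonneg (gt z1)]
    have h2 := hnorm z1 (by rw [mem_ball_zero_iff]; linarith)
    have h3 : Real.exp (h z1).re ≤ Real.exp ‖h z1‖ :=
      Real.exp_le_exp.2 (Complex.re_le_norm _)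
    have h4 : ‖gt 0‖ ≤ Real.exp (1 + 3 * N) := by
      rw [Real.exp_add]
      have h5 : (0 : ℝ) < 16 ^ N := by positivity
      have h6 : 3 / 2 * (16 : ℝ) ^ N ≤ Real.exp 1 * Real.exp (3 * N) :=
        mul_le_mul (by linarith) he16 h5.le (Real.exp_pos _).le
      exact hgt0.2.trans h6
    calc Real.exp (c0 * M) ≤ ‖f z1‖ := hz2
      _ ≤ ‖gt z1‖ := h1
      _ = ‖gt 0‖ * Real.exp (h z1).re := h2
      _ ≤ Real.exp (1 + 3 * N) * Real.exp ‖h z1‖ :=
        mul_le_mul h4 h3 (Real.exp_pos _).le (Real.exp_pos _).le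
      _ = _ := by rw [← Real.exp_add]
  have hfin2 := Real.exp_le_exp.1 hfin
  have hm2 : 52 * M * (12 / 13) ^ m * 13 ≤ c0 * M / 4 := by
    have h1 : 52 * M * (12 / 13) ^ m * 13 = 676 * M * (12 / 13) ^ m := by ring
    rw [h1]
    have h2 : 676 * M * (12 / 13) ^ m ≤ 676 * M * (c0 / 2704) :=
      mul_le_mul_of_nonneg_left hm.le (by linarith)
    refine h2.trans (le_of_eq ?_)
    ring
  have h5 : 2 * (3 * (N : ℝ) + 2) * 10 ^ m = 6 * (N * P) + 4 * P := by
    rw [hP]; ring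
  rw [h5] at hT
  nlinarith

end Pool.Agent.W240.XI
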