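import Pool.Agent.W536.XI.Stm

open Complex MeasureTheory Filter Topology Metric

namespace Pool.Agent.W240.XI

open W536.XI

theorem tendsto_G (K : ℕ) :
    Tendsto (fun x : ℝ => (x + 1) ^ K * Real.exp (-x / 2)) atTop (𝓝 0) := by
  have h1 := Real.tendsto_pow_mul_exp_neg_atTop_nhds_zero K
  have h2 : Tendsto (fun x : ℝ => (x + 1) / 2) atTop atTop :=
    (tendsto_atTop_add_const_right atTop 1 tendsto_id).atTop_div_const (by norm_num)
  have h3 := (h1.comp h2).const_mul (2 ^ K * Real.exp (1 / 2))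
  rw [mul_zero] at h3
  refine h3.congr fun x => ?_
  simp only [Function.comp]
  have e1 : Real.exp (-x / 2) = Real.exp (1 / 2) * Real.exp (-((x + 1) / 2)) := by
    rw [← Real.exp_add]; congr 1; ring
  rw [e1, div_pow]
  have : (2 : ℝ) ^ K ≠ 0 := by positivity
  field_simp

theorem sum_le (f X : ℂ → ℂ) (A B : ℂ) (hB : B ≠ 0) (S : Finset ℂ) (p : ℂ → Prop)
    (hord : ∀ a ∈ S, analyticOrderAt f a ≠ ⊤)
    (heq : ∀ a, analyticOrderAt f a = analyticOrderAt X (A + B * a))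
    (hp : ∀ a ∈ S, p (A + B * a)) (x : ℝ)
    (hx : x ≤ ∑ a ∈ S, (analyticOrderNatAt f a : ℝ)) :
    ENNReal.ofReal x ≤ ∑' z : {z : ℂ // p z}, ((analyticOrderAt X z : ℕ∞) : ENNReal) := by
  have h1 : ENNReal.ofReal x ≤ ∑ a ∈ S, (analyticOrderNatAt f a : ENNReal) := by
    refine (ENNReal.ofReal_le_ofReal hx).trans (le_of_eq ?_)
    rw [ENNReal.ofReal_sum_of_nonneg (fun _ _ => Nat.cast_nonneg _)]
    refine Finset.sum_congr rfl fun a _ => ?_
    rw [ENNReal.ofReal_natCast]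
  refine h1.trans ?_
  rw [← Finset.tsum_subtype]
  let φ : {a // a ∈ S} → {z : ℂ // p z} := fun a => ⟨A + B * a.1, hp a.1 a.2⟩
  have hφ : Function.Injective φ := by
    intro a b hab
    have h2 : A + B * a.1 = A + B * b.1 := congrArg Subtype.val hab
    exact Subtype.ext (mul_left_cancel₀ hB (add_left_cancel h2))
  refine le_trans (le_of_eq ?_) (ENNReal.tsum_comp_le_tsum_of_injective hφ
    (fun z : {z : ℂ // p z} => ((analyticOrderAt X z : ℕ∞) : ENNReal)))
  refine tsum_congr fun a => ?_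
  show (analyticOrderNatAt f a.1 : ENNReal) = ((analyticOrderAt X (A + B * a.1) : ℕ∞) : ENNReal)
  rw [← heq, ← Nat.cast_analyticOrderNatAt (hord a.1 a.2)]
  rfl

theorem lowl (h1 : S_APX) (h2 : S_DABS) (h3 : S_LC) (h4 : S_ZF) (h5 : S_ORD) (h6 : S_FREP) :
    S_LOWL := by
  obtain ⟨y1, C, K, hA⟩ := h1 3
  obtain ⟨hD1, hD2, hD3, hD4, hD5⟩ := h2
  obtain ⟨dl, M0, hdl, hLC⟩ := h3 (1 / 3200) (by norm_num)
  have hDabs0 : ∀ b, 0 ≤ Dabs b := fun b => tsum_nonneg fun n => (Real.exp_pos _).le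
  set g0 : ℝ := min (Real.exp (-2) / 8) (1 / (8 * (Dabs 0 + 1))) with hg0
  have hg0pos : 0 < g0 := by
    refine lt_min (by positivity) ?_
    have := hDabs0 0
    positivity
  have hG : ∀ᶠ x : ℝ in atTop, (x + 1) ^ K * Real.exp (-x / 2) ≤ g0 :=
    (tendsto_G K).eventually_le_const hg0pos
  have hρ : ∀ᶠ x : ℝ in atTop, (x + 1) ^ K * Real.exp (-x / 2) ≤ g0 ∧ 100 ≤ x ∧ M0 ≤ x ∧
      (1 + 2 * C) * 2 ≤ x :=
    hG.and ((eventually_ge_atTop _).and ((eventually_ge_atTop _).and (eventually_ge_atTop _)))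
  have hev := (Real.tendsto_log_atTop.eventually hρ).and
    ((eventually_ge_atTop (1 : ℝ)).and (eventually_ge_atTop y1))
  obtain ⟨T0, hT0⟩ := eventually_atTop.1 hev
  refine ⟨dl, T0, hdl, fun T hT y hy => ?_⟩
  obtain ⟨⟨hG, hρ100, hρM, hρC⟩, hT1, hTy⟩ := hT0 T hT
  obtain ⟨⟨hyT, hy2T⟩, u, hu, hDu⟩ := hy
  set ρ : ℝ := Real.log T with hρdef
  have hTpos : 0 < T := by linarith
  have hypos : 0 < y := by linarith
  have hly1 : ρ ≤ Real.log y := Real.log_le_log hTpos hyT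
  have hly2 : Real.log y ≤ ρ + 1 := by
    have h7 : Real.log y ≤ Real.log (2 * T) := Real.log_le_log hypos hy2T
    rw [Real.log_mul (by norm_num) hTpos.ne'] at h7
    have := Real.log_two_lt_d9
    linarith
  obtain ⟨l, H, hH, hl, hapx⟩ := hA y (hTy.trans hyT)
  have hC0 : 0 ≤ C := (norm_nonneg _).trans hl
  have hρpos : 0 < ρ := by linarith
  set δ : ℝ := Real.log y ^ K / y with hδ
  have hlogy0 : 0 ≤ Real.log y := by linarith
  have hδ0 : 0 ≤ δ := by positivity
  set Gr : ℝ := (ρ + 1) ^ K * Real.exp (-ρ / 2) with hGr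
  have hGr0 : 0 ≤ Gr := by positivity
  have hδG : δ ≤ Gr * Real.exp (-ρ / 2) := by
    rw [hδ, div_le_iff₀ hypos]
    have e1 : Real.exp (-ρ / 2) * Real.exp (-ρ / 2) * T = 1 := by
      rw [← Real.exp_add, ← Real.exp_log hTpos, ← Real.exp_add, ← hρdef]
      rw [show -ρ / 2 + -ρ / 2 + ρ = 0 by ring, Real.exp_zero]
    calc Real.log y ^ K ≤ (ρ + 1) ^ K := pow_le_pow_left₀ hlogy0 hly2 K
      _ = (ρ + 1) ^ K * (Real.exp (-ρ / 2) * Real.exp (-ρ / 2) * T) := by rw [e1, mul_one]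
      _ = Gr * Real.exp (-ρ / 2) * T := by rw [hGr]; ring
      _ ≤ Gr * Real.exp (-ρ / 2) * y := mul_le_mul_of_nonneg_left hyT (by positivity)
  have hexpneg : Real.exp (-ρ / 2) ≤ 1 := Real.exp_le_one_iff.2 (by linarith)
  have hδ1 : δ * Dabs 0 ≤ 1 / 8 := by
    have h7 : δ ≤ Gr := hδG.trans (by nlinarith)
    have h8 : Gr ≤ 1 / (8 * (Dabs 0 + 1)) := hG.trans (min_le_right _ _)
    have h9 := hDabs0 0
    have h10 : δ ≤ 1 / (8 * (Dabs 0 + 1)) := h7.trans h8
    rw [le_div_iff₀ (by positivity)] at h10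
    nlinarith
  have hδ2 : δ * Real.exp (ρ / 20 + 2) ≤ 1 / 8 := by
    have h8 : Gr ≤ Real.exp (-2) / 8 := hG.trans (min_le_left _ _)
    calc δ * Real.exp (ρ / 20 + 2) ≤ Gr * Real.exp (-ρ / 2) * Real.exp (ρ / 20 + 2) :=
          mul_le_mul_of_nonneg_right hδG (Real.exp_pos _).le
      _ = Gr * Real.exp (-ρ / 2 + (ρ / 20 + 2)) := by rw [mul_assoc, ← Real.exp_add]
      _ ≤ Gr * Real.exp 2 := by
          refine mul_le_mul_of_nonneg_left (Real.exp_le_exp.2 (by linarith)) hGr0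
      _ ≤ Real.exp (-2) / 8 * Real.exp 2 := mul_le_mul_of_nonneg_right h8 (Real.exp_pos _).le
      _ = 1 / 8 := by
          rw [div_mul_eq_mul_div, ← Real.exp_add]
          norm_num
  have hδ3 : δ ≤ 1 / 8 := by
    have : 1 ≤ Real.exp (ρ / 20 + 2) := Real.one_le_exp (by linarith)
    nlinarith
  have hsmall : Real.exp (-(Real.log y) ^ 2) ≤ 1 / 8 := by
    have h7 : 8 ≤ Real.exp ((Real.log y) ^ 2) := by
      have := Real.add_one_le_exp ((Real.log y) ^ 2)
      nlinarith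
    rw [Real.exp_neg, one_div]
    exact inv_anti₀ (by norm_num) h7
  -- the functions
  set σ : ℂ → ℂ := fun z => I * y + ρ + ρ * z with hσ
  set A : ℂ := -I * (I * y + ρ + 2 * l - 1 / 2) with hAdef
  set B : ℂ := -I * ρ with hBdef
  set E : ℂ → ℂ := fun z => cexp (-(l * σ z)) / H with hE
  set f : ℂ → ℂ := fun z => XiL (-1) (A + B * z) * E z with hf
  have hσd : Differentiable ℂ σ := by
    rw [hσ]; fun_prop
  have hEd : Differentiable ℂ E := by
    rw [hE]
    exact ((hσd.const_mul l).neg.cexp).div_const H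
  have hE0 : ∀ z, E z ≠ 0 := fun z => div_ne_zero (Complex.exp_ne_zero _) hH
  have hXd : Differentiable ℂ (XiL (-1)) := h6.2
  have hfd : Differentiable ℂ f := by
    rw [hf]
    refine Differentiable.mul (hXd.comp ?_) hEd
    fun_prop
  have hB0 : B ≠ 0 := by
    rw [hBdef]
    refine mul_ne_zero (neg_ne_zero.2 I_ne_zero) ?_
    exact_mod_cast hρpos.ne'
  have hfF : ∀ z, f z = F (σ z + 2 * l) * E z := by
    intro z
    simp only [hf, F]
    congr 2
    simp only [hAdef, hBdef, hσ]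
    ring
  have hσre : ∀ z, (σ z).re = ρ * (1 + z.re) := by
    intro z
    simp only [hσ, add_re, mul_re, I_re, I_im, ofReal_re, ofReal_im]
    ring
  have hσim : ∀ z, (σ z).im = y + ρ * z.im := by
    intro z
    simp only [hσ, add_im, mul_im, I_re, I_im, ofReal_re, ofReal_im]
    ring
  have key : ∀ z : ℂ, ‖z‖ ≤ 3 / 2 →
      ‖f z - D (σ z)‖ ≤ δ * Dabs (-(σ z).re) + Real.exp (-(Real.log y) ^ 2) := by
    intro z hz
    have h7 : ‖σ z - I * y‖ ≤ 3 * Real.log y := by
      have e : σ z - I * y = ρ * (1 + z) := by simp only [hσ]; ring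
      rw [e, norm_mul, Complex.norm_real, Real.norm_eq_abs, abs_of_pos hρpos]
      have h8 : ‖1 + z‖ ≤ 5 / 2 := by
        have := norm_add_le (1 : ℂ) z
        rw [norm_one] at this
        linarith
      nlinarith
    have h8 := hapx (σ z) h7
    have hw : H * cexp (l * σ z) ≠ 0 := mul_ne_zero hH (Complex.exp_ne_zero _)
    have e : f z - D (σ z) =
        (F (σ z + 2 * l) - H * cexp (l * σ z) * D (σ z)) / (H * cexp (l * σ z)) := by
      rw [hfF z]
      simp only [hE]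
      rw [Complex.exp_neg]
      have := Complex.exp_ne_zero (l * σ z)
      field_simp
    rw [e, norm_div, div_le_iff₀ (norm_pos_iff.2 hw)]
    exact h8.trans (le_of_eq (mul_comm _ _))
  -- (a)
  have ha : ∀ z : ℂ, ‖z‖ ≤ 1 / 2 → ‖f z - 1‖ ≤ 1 / 2 := by
    intro z hz
    have h7 := key z (by linarith)
    have hzre : -(1 / 2) ≤ z.re := by
      have := (abs_le.1 (Complex.abs_re_le_norm z)).1
      linarith
    have hre : ρ / 2 ≤ (σ z).re := by
      rw [hσre]
      nlinarith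
    have h8 := hD5 (σ z) (by linarith)
    have h9 : 3 * Real.exp (-((σ z).re * Real.log 2)) ≤ 1 / 8 := by
      have h10 : 24 ≤ Real.exp ((σ z).re * Real.log 2) := by
        have h11 := Real.add_one_le_exp ((σ z).re * Real.log 2)
        have h12 := Real.log_two_gt_d9
        nlinarith
      rw [Real.exp_neg]
      have h13 : (Real.exp ((σ z).re * Real.log 2))⁻¹ ≤ 24⁻¹ := inv_anti₀ (by norm_num) h10
      linarith
    have h10 : δ * Dabs (-(σ z).re) ≤ δ * Dabs 0 :=
      mul_le_mul_of_nonneg_left (hD3 _ _ (by linarith)) hδ0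
    have h11 := norm_sub_le_norm_sub_add_norm_sub (f z) (D (σ z)) 1
    linarith
  -- (b)
  have hb : ∀ z : ℂ, ‖z‖ ≤ 3 / 2 → ‖f z‖ ≤ Real.exp (ρ ^ 2) := by
    intro z hz
    have h7 := key z hz
    have hzre : -(3 / 2) ≤ z.re := by
      have := (abs_le.1 (Complex.abs_re_le_norm z)).1
      linarith
    have hre : -(σ z).re ≤ ρ / 2 := by
      rw [hσre]
      nlinarith
    have h8 : Dabs (-(σ z).re) ≤ Dabs (ρ / 2) := hD3 _ _ hre
    have h9 := hD4 (σ z)
    have h10 := hD2 (ρ / 2)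
    rw [abs_of_pos (by linarith : (0 : ℝ) < ρ / 2)] at h10
    have h11 : ‖f z‖ ≤ ‖f z - D (σ z)‖ + ‖D (σ z)‖ := by
      have := norm_add_le (f z - D (σ z)) (D (σ z))
      rwa [sub_add_cancel] at this
    have h12 : δ * Dabs (-(σ z).re) ≤ 1 * Dabs (ρ / 2) :=
      mul_le_mul (by linarith) h8 (hDabs0 _) (by norm_num)
    set X : ℝ := Real.exp ((ρ / 2) ^ 2 / 4 + ρ / 2 + 2) with hX
    have hX1 : 1 ≤ X := Real.one_le_exp (by positivity)
    have h13 : ‖f z‖ ≤ 3 * X := by linarith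
    refine h13.trans ?_
    have h14 : 3 ≤ Real.exp 2 := by
      have := Real.add_one_le_exp (2 : ℝ)
      linarith
    calc 3 * X ≤ Real.exp 2 * X := mul_le_mul_of_nonneg_right h14 (by linarith)
      _ = Real.exp (2 + ((ρ / 2) ^ 2 / 4 + ρ / 2 + 2)) := by rw [hX, ← Real.exp_add]
      _ ≤ Real.exp (ρ ^ 2) := Real.exp_le_exp.2 (by nlinarith)
  -- (c)
  have hc : ∃ z : ℂ, ‖z‖ ≤ 6 / 5 ∧ Real.exp (1 / 3200 * ρ ^ 2) ≤ ‖f z‖ := by
    set z1 : ℂ := ⟨-(21 / 20), (u - y) / ρ⟩ with hz1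
    have hz1n : ‖z1‖ ≤ 6 / 5 := by
      have h7 : ‖z1‖ ^ 2 ≤ (6 / 5) ^ 2 := by
        rw [Complex.sq_norm, Complex.normSq_apply]
        simp only [hz1]
        have h8 : (u - y) / ρ * ((u - y) / ρ) ≤ 1 / 4 := by
          have h9 : |(u - y) / ρ| ≤ 1 / 2 := by
            rw [abs_div, abs_of_pos hρpos, div_le_iff₀ hρpos]
            linarith
          have h10 := abs_le.1 h9
          nlinarith
        linarith
      exact le_of_sq_le_sq h7 (by norm_num)
    refine ⟨z1, hz1n, ?_⟩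
    have hσz : σ z1 = -(ρ / 20 : ℝ) + I * u := by
      apply Complex.ext
      · rw [hσre]
        simp only [hz1, add_re, neg_re, ofReal_re, mul_re, I_re, I_im, ofReal_im]
        ring
      · rw [hσim]
        simp only [hz1, add_im, neg_im, ofReal_re, mul_im, I_re, I_im, ofReal_im]
        field_simp
        ring
    have h7 := key z1 (by linarith)
    have hre : -(σ z1).re = ρ / 20 := by
      rw [hσre]
      simp only [hz1]
      ring
    rw [hre] at h7
    rw [hσz] at h7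
    have h10 := hD2 (ρ / 20)
    rw [abs_of_pos (by linarith : (0 : ℝ) < ρ / 20)] at h10
    set X : ℝ := Real.exp ((ρ / 20) ^ 2 / 4) with hX
    have hX0 : 0 < X := Real.exp_pos _
    have h11 : δ * Dabs (ρ / 20) ≤ X / 8 := by
      calc δ * Dabs (ρ / 20) ≤ δ * Real.exp ((ρ / 20) ^ 2 / 4 + ρ / 20 + 2) :=
            mul_le_mul_of_nonneg_left h10 hδ0
        _ = X * (δ * Real.exp (ρ / 20 + 2)) := by
            rw [hX, add_assoc, Real.exp_add]
            ring
        _ ≤ X * (1 / 8) := mul_le_mul_of_nonneg_left hδ2 hX0.le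
        _ = X / 8 := by ring
    have h12 : ‖D (-(ρ / 20 : ℝ) + I * u)‖ ≤
        ‖f z1 - D (-(ρ / 20 : ℝ) + I * u)‖ + ‖f z1‖ := by
      have := norm_sub_norm_le (D (-(ρ / 20 : ℝ) + I * u)) (f z1)
      rw [norm_sub_rev] at this
      linarith
    set x : ℝ := Real.exp (1 / 3200 * ρ ^ 2) with hx
    have hx4 : 4 ≤ x := by
      have := Real.add_one_le_exp (1 / 3200 * ρ ^ 2)
      nlinarith
    have hXx : X = x * x := by
      rw [hX, hx, ← Real.exp_add]
      congr 1
      ring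
    nlinarith
  -- the zeros
  have hf0 : f 0 ≠ 0 := by
    intro h
    have := ha 0 (by simp)
    rw [h, zero_sub, norm_neg, norm_one] at this
    norm_num at this
  obtain ⟨S, g, hS, -, -, hord, -⟩ := h4 f hfd ⟨0, hf0⟩ (7 / 5)
  have hcount := hLC (ρ ^ 2) (by nlinarith) f hfd ha hb hc S hS
  have hl2 : |l.re - Real.log y / 2| ≤ C ∧ |l.im| ≤ C := by
    have e1 : (l - (Real.log y / 2 : ℝ)).re = l.re - Real.log y / 2 := by simp
    have e2 : (l - (Real.log y / 2 : ℝ)).im = l.im := by simp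
    exact ⟨by rw [← e1]; exact (Complex.abs_re_le_norm _).trans hl,
      by rw [← e2]; exact (Complex.abs_im_le_norm _).trans hl⟩
  refine sum_le f (XiL (-1)) A B hB0 S
    (fun z => XiL (-1) z = 0 ∧ z.im < 0 ∧ |z.re - y| ≤ 2 * ρ) hord
    (fun a => h5 (XiL (-1)) E hXd hEd hE0 A B hB0 a) ?_ _ hcount
  intro a haS
  obtain ⟨han, hfa⟩ := (hS a).1 haS
  have hare := abs_le.1 ((Complex.abs_re_le_norm a).trans han)
  have haim := abs_le.1 ((Complex.abs_im_le_norm a).trans han)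
  have hAB : A + B * a = -I * (σ a + 2 * l - 1 / 2) := by
    simp only [hAdef, hBdef, hσ]
    ring
  refine ⟨?_, ?_, ?_⟩
  · have : XiL (-1) (A + B * a) * E a = 0 := hfa
    exact (mul_eq_zero.1 this).resolve_right (hE0 a)
  · have e : (A + B * a).im = 1 / 2 - (σ a).re - 2 * l.re := by
      rw [hAB]
      simp [mul_im]
      ring
    rw [e, hσre]
    have h7 := (abs_le.1 hl2.1).1
    nlinarith
  · have e : (A + B * a).re - y = ρ * a.im + 2 * l.im := by
      have e2 : (A + B * a).re = (σ a).im + 2 * l.im := by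
        rw [hAB]
        simp [mul_re]
      rw [e2, hσim]
      ring
    rw [e, abs_le]
    have h7 := abs_le.1 hl2.2
    constructor <;> nlinarith

end Pool.Agent.W240.XI
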